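import Pool.Agent.N603.DB.Gq

/-!
# The Lang–Rohrlich conjecture: `π` and `Γ(a_j / q)` with `a_j` congruent to `j a`, for EVERY numerator `a`

For integers `0 < a < q` without common divisor let `a_j` be the residue of `j a` modulo `q`, `1 ≤ j ≤ n`. If `q > 2n` is
prime to `n!`, the numbers `Γ(a_j / q)` are, up to the reflection formula, `n` different ones of the generators of the field
`F_q`. We say that `a / q` is good if `π` and the numbers `Γ(a_1 / q), …, Γ(a_n / q)` satisfy no polynomial relation of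
degree at most `d` whose coefficients are integers of the number field `F` with conjugates of absolute value at most `q^A`,
and if the `n` Gamma values satisfy no such relation, not even an approximate one, with coefficients which are combinations
of given complex numbers `ω_0, …, ω_(g-1)`.

(1) For every `ε > 0` all but at most `C X^ε` of the reduced fractions `a / q` with `q ≤ X` are good. So for all `q ≤ X` but
at most `C X^ε` the fractions `a / q` are good for EVERY numerator `a`.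

(2) For all real numbers `ξ ≥ 0` outside a set of Hausdorff dimension ZERO, all `F`, `d`, `A` and all exponents `τ > 0`: ALL
reduced fractions `a / q` with large `q` and `|ξ - a / q| ≤ C q^(-τ)` are good.

(3) For all `α` in `ℝ^m` outside a set of Hausdorff dimension at most `(m + κ) / (1 + τ)` and all large `q` with
`‖q α_j - β_j‖ ≤ C q^(-τ)` for `j = 1, …, m`: the fractions `a / q'` are good for EVERY numerator `a`, for all `q' > n` with
`|q' - G q| ≤ q^κ`. For `G v = v`, `κ = 0` the case `q' = q` is included. For `β = 0`, `C = 1`, `τ = 1 / m` the `q` include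
the denominators of all best simultaneous approximations; they form a very sparse sequence, and for `κ < 1` the bound is
less than `m`, so that the statement holds for almost all `α`.

Proof. The functions `Γ(1 + j t)`, `1 ≤ j ≤ n`, are algebraically independent over `ℂ(t)` (shift by `1`, the zeros of the
factors of automorphy), and `Γ(1 + j a / q)` is `Γ(a_j / q)` multiplied by a rational number with numerator and denominator
at most `q^(2n)`. The elements of `F` of height at most `T` in `[0, 1]` which are bad at their own height are `O(T^ε)` in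
number for every `ε > 0` (determinants of Bombieri-Pila type); so the limit superior of the intervals with radii `C q^(-τ)`
around them has dimension at most `ε / τ`, and for (3) the `q` for which a bad fraction has a denominator near `G q` form a
set with `O(X^(κ + ε))` elements up to `X`, and the `α` with infinitely many approximations with denominators in such a set
are covered by few small cubes (`Pool.Agent.N671.DA`). There are only countably many number fields in `ℂ`.
-/

set_option autoImplicit false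

open NumberField

namespace Pool.Agent.Results.MP_274814_nt.EveryNumerator

open Pool.Agent.N671.DA (Solves Expanding expanding_pow)
open Pool.Agent.N603.DB

/-- The polynomials of degree at most `d` in each variable, all of whose coefficients are of the form `∑ ξ_i ι(c_i)`, where
the `c_i` are integers of the number field `F` all of whose conjugates have absolute value at most `H`. -/
def Admissible {σ : Type} {g : ℕ} (F : Type) [Field F] [NumberField F] (ι : F →+* ℂ) (ξ : Fin g → ℂ) (d : ℕ) (H : ℝ)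
    (P : MvPolynomial σ ℂ) : Prop :=
  (∀ y, P.degreeOf y ≤ d) ∧
    ∀ s, ∃ c : Fin g → 𝓞 F, (∀ i (φ : F →+* ℂ), ‖φ (c i)‖ ≤ H) ∧ P.coeff s = ∑ i, ξ i * ι (c i)

/-- The complex numbers `v` are good: every admissible polynomial takes at them a value which is at least `δ` times each of
its coefficients, and `π` and these numbers satisfy no relation `Q = 0` with a nonzero polynomial `Q` of degree at most `d`
in each variable whose coefficients are integers of `F` with conjugates of absolute value at most `H`. -/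
def Good {σ : Type} {g : ℕ} (F : Type) [Field F] [NumberField F] (ι : F →+* ℂ) (ξ : Fin g → ℂ) (d : ℕ)
    (H δ : ℝ) (v : σ → ℂ) : Prop :=
  (∀ P : MvPolynomial σ ℂ, Admissible F ι ξ d H P → ∀ s, δ * ‖P.coeff s‖ ≤ ‖MvPolynomial.aeval v P‖) ∧
  ∀ Q : MvPolynomial (Option σ) (𝓞 F), Q ≠ 0 → (∀ x, Q.degreeOf x ≤ d) →
    (∀ s (φ : F →+* ℂ), ‖φ ((Q.coeff s : 𝓞 F) : F)‖ ≤ H) →
    MvPolynomial.eval₂ (ι.comp (algebraMap (𝓞 F) F)) (fun o => o.elim (Real.pi : ℂ) v) Q ≠ 0

/-- The numbers `Γ(a_j / q)`, where `a_j` is the residue of `(j + 1) a` modulo `q`, `0 ≤ j < n`. -/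
noncomputable def gammas (n a q : ℕ) (j : Fin n) : ℂ := Complex.Gamma (((((j : ℕ) + 1) * a) % q : ℕ) / q)

/-- the loss in the exponents -/
noncomputable def cc (n d : ℕ) : ℝ := ((2 * (n + 1) * (d * (n + 1)) : ℕ) : ℝ)

theorem cc_nonneg (n d : ℕ) : 0 ≤ cc n d := Nat.cast_nonneg _

theorem key {F : Type} [Field F] [NumberField F] {ι : F →+* ℂ} {n d a q g : ℕ} {ξ : Fin g → ℂ} {A B : ℝ} (hq : n < q)
    (ha : a < q) (hc : a.Coprime q)
    (h : Pool.Agent.R349.Gen.GoodG F ι ξ d ((q : ℝ) ^ (A + cc n d)) ((q : ℝ) ^ (-B))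
      (fun j : Fin n => Gq.ga n j ((a : ℂ) / q))) :
    Good F ι ξ d ((q : ℝ) ^ A) ((q : ℝ) ^ (-(B + cc n d))) (gammas n a q) := by
  have hq0 : 0 < q := by omega
  have hqR : (0 : ℝ) < q := by exact_mod_cast hq0
  have hres : ∀ j : Fin n, 0 < (((j : ℕ) + 1) * a) % q := by
    intro j
    rw [Nat.pos_iff_ne_zero]
    intro h0
    have h1 : q ∣ ((j : ℕ) + 1) * a := Nat.dvd_of_mod_eq_zero h0
    have h2 : q ∣ (j : ℕ) + 1 := (Nat.Coprime.dvd_mul_right hc.symm).1 h1
    have h3 := Nat.le_of_dvd (Nat.succ_pos _) h2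
    have h4 := j.2
    omega
  choose M N hM hN hMK hNK hMN using fun j : Fin n =>
    Gq.gam_res n a q hq0 ha ((j : ℕ) + 1) j.2 (hres j) hq.le
  have hcc : (((q ^ (2 * (n + 1)) : ℕ) : ℝ)) ^ (d * (Fintype.card (Fin n) + 1)) = (q : ℝ) ^ cc n d := by
    rw [Fintype.card_fin, Nat.cast_pow, ← pow_mul, cc, Real.rpow_natCast]
  have h2 := Gq.good_scale (F := F) (ι := ι) (ξ := ξ) (d := d) (H := (q : ℝ) ^ A) (δ := (q : ℝ) ^ (-B))
    (v := fun j : Fin n => Gq.ga n j ((a : ℂ) / q)) (w := gammas n a q) M N (q ^ (2 * (n + 1))) hM hN hMK hNK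
    (Nat.one_le_pow _ _ hq0) (by positivity) (by positivity) (fun j => by
      have h3 := hMN j
      unfold Gq.ga gammas
      exact h3) (by
      rw [hcc, ← Real.rpow_add hqR]
      exact h)
  rw [hcc, ← Real.rpow_sub hqR] at h2
  have e1 : -B - cc n d = -(B + cc n d) := by ring
  rw [e1] at h2
  exact h2

theorem den_eq {a q : ℕ} (hq : 0 < q) (hc : a.Coprime q) : ((a : ℚ) / q).den = q := by
  have h := Rat.den_div_eq_of_coprime (a := (a : ℤ)) (b := (q : ℤ)) (by exact_mod_cast hq) (by simpa using hc)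
  push_cast at h
  exact_mod_cast h

theorem num_eq {a q : ℕ} (hq : 0 < q) (hc : a.Coprime q) : ((a : ℚ) / q).num = a := by
  have h := Rat.num_div_eq_of_coprime (a := (a : ℤ)) (b := (q : ℤ)) (by exact_mod_cast hq) (by simpa using hc)
  push_cast at h
  exact_mod_cast h

theorem ht_eq (F : Type) [Field F] [NumberField F] {a q : ℕ} (h0 : 0 < a) (ha : a < q) (hc : a.Coprime q) :
    N603.DA.ht F (((a : ℚ) / q : ℚ) : F) = q := by
  have hq : 0 < q := by omega
  rw [N603.DA.ht_rat F _ (by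
    have h1 : (0 : ℚ) < a := by exact_mod_cast h0
    have h2 : (0 : ℚ) < q := by exact_mod_cast hq
    positivity) (by
    have h2 : (0 : ℚ) < q := by exact_mod_cast hq
    rw [div_lt_one h2]
    exact_mod_cast ha), den_eq hq hc]

/-- **Every numerator.** (1) Let `F` be a number field with an embedding `ι` in `ℂ`, let `ω_0, ω_1, …` be complex numbers,
`n`, `g`, `d`, `A` and `ε > 0` be given. There are `B` and `C` such that for all `X ≥ 1` the numbers
`Γ(a_1 / q), …, Γ(a_n / q)`, `a_j ≡ j a` modulo `q`, are good for the degree `d`, the height `q^A`, the numbers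
`ω_0, …, ω_(g-1)` and the measure `q^(-B)`, for all reduced fractions `a / q` in `(0, 1)` with `q ≤ X`, with at most `C X^ε`
exceptions.
(2) There is a set `E` of real numbers of Hausdorff dimension zero, depending only on the `ω_i`, such that for all `ξ ≥ 0`
not in `E`, all number fields `F` in `ℂ`, all `n`, `g`, `d`, `A` and all `τ > 0` there is `B` such that for all `C` the same
is true for ALL reduced fractions `a / q` in `(0, 1)` with large `q` and `|ξ - a / q| ≤ C q^(-τ)`.
(3) Let `G` have steps `≥ c > 0` and growth at most `v^b`, `0 ≤ κ ≤ 1`, `β` in `ℝ^m` and `τ > 0`. There is a set `E` in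
`ℝ^m` of Hausdorff dimension at most `(m + κ) / (1 + τ)` such that for all `α` outside `E`, all number fields `F` in `ℂ`,
all `n`, `g`, `d` and `A` there is `B` such that for all `C` and all large `q` with `‖q α_j - β_j‖ ≤ C q^(-τ)` for all `j`:
the same for EVERY reduced fraction `a / q'` in `(0, 1)` with `q' > n` and `|q' - G q| ≤ q^κ`.
(4) If `a` and `j` are prime to `q`, then so is the residue of `j a`; for `2n < q` the residues of `j a`, `1 ≤ j ≤ n`, are
different, and no two of them have the sum `q`; and the functions `c v^b` with `c > 0`, `b ≥ 1` are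
examples of `G`. -/
theorem result :
    (∀ (F : Type) [Field F] [NumberField F] (ι : F →+* ℂ) (ω : ℕ → ℂ) (n g d : ℕ) (A ε : ℝ), 0 < ε →
      ∃ B C : ℝ, ∀ X : ℝ, 1 ≤ X →
        (({p : ℕ × ℕ | (p.2 : ℝ) ≤ X ∧ 0 < p.1 ∧ p.1 < p.2 ∧ p.1.Coprime p.2 ∧
          ¬ Good F ι (fun i : Fin g => ω i) d ((p.2 : ℝ) ^ A) ((p.2 : ℝ) ^ (-B)) (gammas n p.1 p.2)}.ncard : ℕ) : ℝ) ≤
            C * X ^ ε) ∧
    (∀ ω : ℕ → ℂ, ∃ E : Set ℝ, dimH E = 0 ∧
      ∀ ξ : ℝ, 0 ≤ ξ → ξ ∉ E → ∀ (F : IntermediateField ℚ ℂ) [NumberField F] (n g d : ℕ) (A τ : ℝ), 0 < τ →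
        ∃ B : ℝ, ∀ C : ℝ, ∃ Q : ℕ, ∀ a q : ℕ, Q ≤ q → 0 < a → a < q → a.Coprime q →
          |ξ - a / q| ≤ C * (q : ℝ) ^ (-τ) →
            Good F (algebraMap F ℂ) (fun i : Fin g => ω i) d ((q : ℝ) ^ A) ((q : ℝ) ^ (-B)) (gammas n a q)) ∧
    (∀ (ω : ℕ → ℂ) (G : ℕ → ℝ) (b : ℝ), Expanding G b → ∀ κ : ℝ, 0 ≤ κ → κ ≤ 1 → ∀ (m : ℕ) (β : Fin m → ℝ) (τ : ℝ),
      0 < τ → ∃ E : Set (Fin m → ℝ), dimH E ≤ ENNReal.ofReal ((m + κ) / (1 + τ)) ∧
        ∀ α, α ∉ E → ∀ (F : IntermediateField ℚ ℂ) [NumberField F] (n g d : ℕ) (A : ℝ), ∃ B : ℝ, ∀ C : ℝ,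
          ∃ Q : ℕ, ∀ q : ℕ, Q ≤ q → Solves α β q (C * (q : ℝ) ^ (-τ)) →
            ∀ a q' : ℕ, n < q' → |(q' : ℝ) - G q| ≤ (q : ℝ) ^ κ → 0 < a → a < q' → a.Coprime q' →
              Good F (algebraMap F ℂ) (fun i : Fin g => ω i) d ((q' : ℝ) ^ A) ((q' : ℝ) ^ (-B)) (gammas n a q')) ∧
    (∀ a j q : ℕ, a.Coprime q → j.Coprime q → ((j * a) % q).Coprime q) ∧
    (∀ n a q i j : ℕ, 2 * n < q → a.Coprime q → 1 ≤ i → i ≤ n → 1 ≤ j → j ≤ n → i ≠ j →
      (i * a) % q ≠ (j * a) % q ∧ (i * a) % q + (j * a) % q ≠ q) ∧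
    ∀ c b : ℝ, 0 < c → 1 ≤ b → Expanding (fun v => c * (v : ℝ) ^ b) b := by
  refine ⟨?_, ?_, ?_, ?_, ?_, fun a b ha hb => expanding_pow ha hb⟩
  · intro F _ _ ι ω n g d A ε hε
    have hL : IsCompact ((fun x : ℝ => (x : ℂ)) '' Set.Icc 0 1) := isCompact_Icc.image Complex.continuous_ofReal
    have hLS : ∀ t ∈ ((fun x : ℝ => (x : ℂ)) '' Set.Icc 0 1), t ∈ Gq.So n := by
      rintro _ ⟨x, hx, rfl⟩
      exact Gq.real_mem n hx.1
    obtain ⟨B, C, hB⟩ := N603.DA.bad_count F ι (Gq.ga n) ω g d (max (A + cc n d) 0) (le_max_right _ _) _ hL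
      (fun j t ht => Gq.ga_an n j t (hLS t ht)) (fun t ht => Gq.ga_loc n t (hLS t ht)) ε hε
    refine ⟨B + cc n d, C + (n + 1) * (n + 1), fun X hX => ?_⟩
    obtain ⟨hfin, hcard⟩ := hB X hX
    set Y := {x : Fin 1 → F | (ι (x 0) ∈ ((fun x : ℝ => (x : ℂ)) '' Set.Icc 0 1) ∧
        ¬ Pool.Agent.R349.Gen.GoodG F ι (fun i : Fin g => ω i) d (N603.DA.ht F (x 0) ^ max (A + cc n d) 0)
        (N603.DA.ht F (x 0) ^ (-B)) (fun z : Fin 1 × Fin n => Gq.ga n z.2 (ι (x z.1)))) ∧
          N603.DA.ht F (x 0) ≤ X} with hY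
    set P := {p : ℕ × ℕ | (p.2 : ℝ) ≤ X ∧ 0 < p.1 ∧ p.1 < p.2 ∧ p.1.Coprime p.2 ∧
          ¬ Good F ι (fun i : Fin g => ω i) d ((p.2 : ℝ) ^ A) ((p.2 : ℝ) ^ (-(B + cc n d))) (gammas n p.1 p.2)} with hP
    set P1 : Set (ℕ × ℕ) := {p | p ∈ P ∧ n < p.2} with hP1
    set P2 : Finset (ℕ × ℕ) := Finset.range (n + 1) ×ˢ Finset.range (n + 1) with hP2
    have hsub : P ⊆ P1 ∪ P2 := by
      intro p hp
      by_cases h : n < p.2
      · exact Or.inl ⟨hp, h⟩
      · refine Or.inr ?_
        have h1 := hp.2.2.1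
        rw [Finset.mem_coe, hP2, Finset.mem_product, Finset.mem_range, Finset.mem_range]
        exact ⟨by omega, by omega⟩
    have hmap : ∀ p ∈ P1, (fun _ : Fin 1 => ((((p.1 : ℕ) : ℚ) / (p.2 : ℕ) : ℚ) : F)) ∈ Y := by
      rintro ⟨a, q⟩ ⟨⟨h1, h2, h3, h4, h5⟩, h6⟩
      simp only at h1 h2 h3 h4 h5 h6
      have hq : 0 < q := by omega
      have hht := ht_eq F h2 h3 h4
      have hcast : ι ((((a : ℕ) : ℚ) / (q : ℕ) : ℚ) : F) = (a : ℂ) / q := by
        rw [map_ratCast]
        push_cast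
        rfl
      refine ⟨⟨?_, fun hg => h5 ?_⟩, ?_⟩
      · refine ⟨(a : ℝ) / q, ⟨by positivity, ?_⟩, ?_⟩
        · rw [div_le_one (by exact_mod_cast hq)]
          exact_mod_cast h3.le
        · simp only
          rw [hcast]
          push_cast
          rfl
      · simp only at hg
        rw [hht] at hg
        have h7 := good_reindex (F := F) (ι := ι) (tagEquiv (Fin n)) hg
        refine key h6 h3 h4 ?_
        rw [← hcast]
        exact Pool.Agent.R437.Met.GG.good_mono (Real.rpow_le_rpow_of_exponent_le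
          (by exact_mod_cast hq) (le_max_left _ _)) le_rfl h7
      · simp only
        rw [hht]
        exact h1
    have hinj : Set.InjOn (fun p : ℕ × ℕ => (fun _ : Fin 1 => ((((p.1 : ℕ) : ℚ) / (p.2 : ℕ) : ℚ) : F))) P1 := by
      rintro ⟨a, q⟩ ⟨⟨h1, h2, h3, h4, h5⟩, h6⟩ ⟨a', q'⟩ ⟨⟨h1', h2', h3', h4', h5'⟩, h6'⟩ he
      simp only at h1 h2 h3 h4 h5 h6 h1' h2' h3' h4' h5' h6'
      have h7 := congrFun he 0
      simp only at h7
      have h8 : ((a : ℚ) / q) = (a' : ℚ) / q' := by exact_mod_cast (Rat.cast_injective (α := F)) h7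
      have h9 := congrArg Rat.den h8
      have h10 := congrArg Rat.num h8
      rw [den_eq (by omega) h4, den_eq (by omega) h4'] at h9
      rw [num_eq (by omega) h4, num_eq (by omega) h4'] at h10
      rw [Prod.mk.injEq]
      exact ⟨by exact_mod_cast h10, h9⟩
    have hc1 : P1.ncard ≤ Y.ncard := Set.ncard_le_ncard_of_injOn _ hmap hinj hfin
    have hP1f : P1.Finite := Set.Finite.of_injOn hmap hinj hfin
    have hc2 : P.ncard ≤ P1.ncard + (n + 1) * (n + 1) := by
      calc P.ncard ≤ (P1 ∪ P2).ncard := Set.ncard_le_ncard hsub (hP1f.union (Finset.finite_toSet _))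
        _ ≤ P1.ncard + (P2 : Set (ℕ × ℕ)).ncard := Set.ncard_union_le _ _
        _ = P1.ncard + (n + 1) * (n + 1) := by
            rw [Set.ncard_coe_finset, hP2, Finset.card_product, Finset.card_range]
    have hXε : (1 : ℝ) ≤ X ^ ε := Real.one_le_rpow hX hε.le
    have hc3 : (P.ncard : ℝ) ≤ P1.ncard + (n + 1) * (n + 1) := by exact_mod_cast hc2
    have hc4 : (P1.ncard : ℝ) ≤ Y.ncard := by exact_mod_cast hc1
    have hn0 : (0 : ℝ) ≤ ((n : ℝ) + 1) * (n + 1) := by positivity
    nlinarith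
  · intro ω
    choose E hE h using fun n : ℕ => near_every (Gq.ga n) _ (Gq.So_open n) (Gq.ga_an n) (Gq.ga_loc n) ω
    refine ⟨⋃ n, {y : ℝ | (y : ℂ) ∈ E n}, ?_, fun ξ hξ hξE F _ n g d A τ hτ => ?_⟩
    · rw [dimH_iUnion]
      simp only [dim_real (hE _)]
      simp
    · obtain ⟨B, hB⟩ := h n (ξ : ℂ) (Gq.real_mem n hξ) (fun hh => hξE (Set.mem_iUnion.2 ⟨n, hh⟩)) F g d
        (A + cc n d) τ hτ
      refine ⟨B + cc n d, fun C => ?_⟩
      obtain ⟨T₁, hT₁⟩ := hB C
      refine ⟨max (⌈T₁⌉₊) (n + 1), fun a q hq h2 h3 h4 hd => ?_⟩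
      have hht := ht_eq F h2 h3 h4
      have hcast : (((((a : ℕ) : ℚ) / (q : ℕ) : ℚ) : F) : ℂ) = (a : ℂ) / q := by
        push_cast
        rfl
      have h7 := (hT₁ ((((a : ℕ) : ℚ) / (q : ℕ) : ℚ) : F) (by
        rw [hht]
        exact (Nat.le_ceil T₁).trans (by exact_mod_cast (le_max_left _ _).trans hq)) (by
        rw [hht, hcast]
        have e1 : (ξ : ℂ) - (a : ℂ) / q = ((ξ - a / q : ℝ) : ℂ) := by push_cast; rfl
        rw [e1, Complex.norm_real]
        exact hd)).2
      rw [hht, hcast] at h7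
      exact key (lt_of_lt_of_le (Nat.lt_succ_self n) ((le_max_right _ _).trans hq)) h3 h4 h7
  · intro ω G b hG κ hκ hκ1 m β τ hτ
    choose E hE h using fun n : ℕ => master_all' (Gq.ga n) _ (Gq.So_open n) (Gq.ga_an n) (Gq.ga_loc n) ω hG hκ hκ1 β hτ
    refine ⟨⋃ n, E n, ?_, fun α hα F _ n g d A => ?_⟩
    · rw [dimH_iUnion]
      exact iSup_le hE
    · obtain ⟨B, hB⟩ := h n α (fun hh => hα (Set.mem_iUnion.2 ⟨n, hh⟩)) F g d (A + cc n d)
        ((fun x : ℝ => (x : ℂ)) '' Set.Icc 0 1) (isCompact_Icc.image Complex.continuous_ofReal) (by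
          rintro _ ⟨x, hx, rfl⟩
          exact Gq.real_mem n hx.1)
      refine ⟨B + cc n d, fun C => ?_⟩
      obtain ⟨Q, hQ⟩ := hB C
      refine ⟨Q, fun q hq hs a q' hn hG' h2 h3 h4 => ?_⟩
      have hht := ht_eq F h2 h3 h4
      have hq' : 0 < q' := by omega
      have hcast : (((((a : ℕ) : ℚ) / (q' : ℕ) : ℚ) : F) : ℂ) = (a : ℂ) / q' := by
        push_cast
        rfl
      have h7 := hQ q hq hs ((((a : ℕ) : ℚ) / (q' : ℕ) : ℚ) : F) (by
        refine ⟨(a : ℝ) / q', ⟨by positivity, ?_⟩, ?_⟩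
        · rw [div_le_one (by exact_mod_cast hq')]
          exact_mod_cast h3.le
        · simp only
          rw [hcast]
          push_cast
          rfl) (by
        rw [hht]
        exact hG')
      rw [hht, hcast] at h7
      exact key hn h3 h4 h7
  · intro a j q ha hj
    have h1 : Nat.gcd (j * a) q = 1 := hj.mul_left ha
    rw [Nat.Coprime, ← Nat.gcd_rec, Nat.gcd_comm]
    exact h1
  · intro n a q i j hn ha hi hin hj hjn hij
    refine ⟨fun h => hij ?_, fun h => ?_⟩
    · have h1 : i * a ≡ j * a [MOD q] := h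
      have h2 : i ≡ j [MOD q] := Nat.ModEq.cancel_right_of_coprime ha.symm h1
      exact Nat.ModEq.eq_of_lt_of_lt h2 (by omega) (by omega)
    · have h1 : q ∣ (i + j) * a := by
        refine ⟨(i * a) / q + (j * a) / q + 1, ?_⟩
        have h2 := Nat.div_add_mod (i * a) q
        have h3 := Nat.div_add_mod (j * a) q
        linarith
      have h2 : q ∣ i + j := (Nat.Coprime.dvd_mul_right ha.symm).1 h1
      have h3 := Nat.le_of_dvd (by omega) h2
      omega

end Pool.Agent.Results.MP_274814_nt.EveryNumerator
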