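import Pool.Agent.N774.LR.Cnt
import Pool.Agent.N774.LR.Dens

/-!
# The answer to the question is negative, and the right upper bound for the transcendence degree

Let `F_q` be the field generated over `ℚ` by `π` and the numbers `Γ(a / q)`, `1 ≤ a ≤ q - 1`, `gcd(a, q) = 1`. The question is
whether its transcendence degree is at least `1 + φ(q) / 2` for every `q > 2`. It is not: the transcendence degree of `F_14` is
at most `3 = φ(14) / 2`. Indeed the duplication formula gives `Γ(a / 14) = 2 ^ (1 - a / 7) √π Γ(a / 7) / Γ((a + 7) / 14)` for odd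
`a`, and in the product over `a = 1, 9, 11`, which are the squares modulo `7`, the values of the Gamma function at the multiples
of `1 / 7` cancel, so that `Γ(1 / 14) Γ(9 / 14) Γ(11 / 14) = 4 π ^ (3 / 2)`.

In general let `p` be a prime divisor of `q`, and let `m` be the part of `q` which is prime to `p`. The multiplication formula
shows that the product of the `Γ(a / q)` with `a` prime to `q` and `a ≡ c` modulo `m` is equal to
`Γ({c / m}) / Γ({c p⁻¹ / m})`, up to a factor which is algebraic over `ℚ(π)`. So for every character `χ` modulo `q` which comes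
from a character `χ*` modulo `m` the Euler factor `1 - χ*(p)` appears, and the `χ`-component of the `log Γ(a / q)` vanishes
if `χ*(p) = 1`. We obtain: the transcendence degree of `F_q` is at most one more than the number of the odd characters modulo
`q` with `χ*(p) ≠ 1` for all prime divisors `p` of `q`. There are `φ(q) / 2` odd characters, and one of them is lost if and only
if `-1` is not a power of `p` modulo `m`, for some prime divisor `p` of `q`. This is so for almost all `q`.
-/

set_option autoImplicit false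

namespace Pool.Agent.Results.MP_274814_nt.NegativeAnswer

/-- The field `F_q` generated over `ℚ` by `π` and the numbers `Γ(a / q)`, `1 ≤ a ≤ q - 1`, `gcd(a, q) = 1`. -/
noncomputable def F (q : ℕ) : IntermediateField ℚ ℂ :=
  IntermediateField.adjoin ℚ
    ({(Real.pi : ℂ)} ∪
      {z : ℂ | ∃ a : ℕ, 1 ≤ a ∧ a ≤ q - 1 ∧ Nat.gcd a q = 1 ∧ z = Complex.Gamma ((a : ℂ) / (q : ℂ))})

open Pool.Agent.N774

theorem crit_gt {q : ℕ} (hq : 0 < q) (h : LR.Crit q) : 2 < q := by
  obtain ⟨p, hp, hpq, hk⟩ := h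
  have h0 := hk 0
  rw [pow_zero] at h0
  by_contra hcon
  have hq2 : q = 1 ∨ q = 2 := by omega
  rcases hq2 with rfl | rfl
  · exact hp.one_lt.ne' (Nat.dvd_one.1 hpq)
  · have hp2 : p = 2 := (Nat.prime_dvd_prime_iff_eq hp Nat.prime_two).1 hpq
    subst hp2
    apply h0
    have : (2 : ℕ).factorization 2 = 1 := Nat.Prime.factorization_self Nat.prime_two
    rw [this]
    norm_num

theorem crit_le {q p : ℕ} (hq : 2 < q) (hp : p.Prime) (hpq : p ∣ q)
    (hk : ∀ k : ℕ, ¬ q / p ^ q.factorization p ∣ p ^ k + 1) :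
    Algebra.trdeg ℚ (F q) ≤ ((q.totient / 2 : ℕ) : Cardinal) := by
  refine (LR.trdeg_F_le hq).trans ?_
  exact_mod_cast LR.card_surv_lt hq hp hpq hk

theorem fourteen : Algebra.trdeg ℚ (F 14) ≤ ((Nat.totient 14 / 2 : ℕ) : Cardinal) :=
  crit_le (p := 2) (by norm_num) Nat.prime_two (by norm_num) LR.seven

/-- (1) The statement of the question is false. (2) It fails for `q = 14`. (3) It fails for all `q > 2` with a prime divisor `p`
no power of which is `-1` modulo the part `q / p ^ v` of `q` prime to `p`. (4) It fails for almost all `q`. (5) For all `q > 2`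
the transcendence degree of `F_q` is at most one more than the number of the odd Dirichlet characters modulo `q` whose
primitive character does not take the value `1` at a prime divisor of `q`. -/
theorem result :
    (¬ ∀ q : ℕ, 2 < q → ((1 + q.totient / 2 : ℕ) : Cardinal) ≤ Algebra.trdeg ℚ (F q)) ∧
    Algebra.trdeg ℚ (F 14) ≤ ((Nat.totient 14 / 2 : ℕ) : Cardinal) ∧
    (∀ q p : ℕ, 2 < q → p.Prime → p ∣ q → (∀ k : ℕ, ¬ q / p ^ q.factorization p ∣ p ^ k + 1) →
      Algebra.trdeg ℚ (F q) ≤ ((q.totient / 2 : ℕ) : Cardinal)) ∧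
    (∀ ε : ℝ, 0 < ε → ∃ N₀ : ℕ, ∀ N : ℕ, N₀ ≤ N →
      (({q : ℕ | ¬ Algebra.trdeg ℚ (F q) ≤ ((q.totient / 2 : ℕ) : Cardinal)} ∩ Set.Ioc 0 N).ncard : ℝ) ≤ ε * N) ∧
    ∀ q : ℕ, 2 < q → Algebra.trdeg ℚ (F q) ≤
      ((1 + Nat.card {χ : DirichletCharacter ℂ q | χ.Odd ∧ ∀ p : ℕ, p.Prime → p ∣ q → χ.primitiveCharacter p ≠ 1} : ℕ) :
        Cardinal) := by
  refine ⟨fun h => ?_, fourteen, fun q p hq hp hpq hk => crit_le hq hp hpq hk, fun ε hε => ?_, fun q hq => LR.trdeg_F_le hq⟩
  · have h1 := (h 14 (by norm_num)).trans fourteen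
    have h2 : (1 + Nat.totient 14 / 2 : ℕ) ≤ Nat.totient 14 / 2 := by exact_mod_cast h1
    omega
  · obtain ⟨N₀, hN₀⟩ := LR.crit_density hε
    refine ⟨N₀, fun N hN => le_trans ?_ (hN₀ N hN)⟩
    have h1 : {q : ℕ | ¬ Algebra.trdeg ℚ (F q) ≤ ((q.totient / 2 : ℕ) : Cardinal)} ∩ Set.Ioc 0 N ⊆
        {q : ℕ | ¬ LR.Crit q} ∩ Set.Ioc 0 N := by
      rintro q ⟨h1, h2⟩
      refine ⟨fun h3 => h1 ?_, h2⟩
      obtain ⟨p, hp, hpq, hk⟩ := h3
      exact crit_le (crit_gt h2.1 ⟨p, hp, hpq, hk⟩) hp hpq hk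
    exact_mod_cast Set.ncard_le_ncard h1 ((Set.finite_Ioc 0 N).subset Set.inter_subset_right)

end Pool.Agent.Results.MP_274814_nt.NegativeAnswer
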